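import Pool.Agent.Helper79.HLD.Core
import Pool.Agent.Helper33.CM.Num

/-! Frames of a corner: knowledge of the box coordinates; the numbers of a corner (helper33). -/

set_option autoImplicit false
set_option linter.unusedSectionVars false

namespace Pool.Agent.Helper79.HLD

open Finset Filter Topology Pool.Agent.Helper69.RK Pool.Agent.Helper31.EC Pool.Agent.Helper31.EC.Sp
open Pool.Agent.Helper31.EC.QS Pool.Agent.Helper57.TA Pool.Agent.Helper21.DO Pool.Agent.Helper79.JET
open Pool.Agent.Helper13.AM Pool.Agent.Helper38.NS Pool.Agent.Helper33.CM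

noncomputable section

variable {S : Sp}

/-- digits after division by a scale -/
theorem dg_of_sc {u r : ℝ} (hu : 0 ≤ u) (hur : u ≤ r) (hr : r ≤ 1) (f : QS S) :
    dg f (r - u) ≤ dg (sc S u * f) r := by
  obtain ⟨g, hg, hfg⟩ := exists_round (sc S u * f) (hu.trans hur) hr
  have h1 : g ∈ Id S u := by
    have h0 : sc S u * f ∈ Id S (u + 0) := sc_mul_mem hu (mem_Id_nonpos le_rfl)
    rw [add_zero] at h0
    have h2 := Ideal.sub_mem _ h0 (Id_mono hur hfg)
    rwa [sub_sub_cancel] at h2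
  obtain ⟨f', hf', hk⟩ := exists_div' hu (hur.trans hr) h1
  have h2 : f - f' ∈ Id S (r - u) := by
    apply mem_of_sc_mul hu hr
    rw [mul_sub, ← hf']
    exact hfg
  have h3 : dg f (r - u) = dg f' (r - u) := dg_eq_of_sub_mem h2 le_rfl (by linarith)
  rw [h3]
  exact (dg_mono _ (by linarith)).trans (hk.trans hg)

variable {d N r : ℕ} {c : CD S d N r} {w : Fin N → ℝ} {z : Fin N}

open Classical in
/-- only the lower coordinates occur -/
theorem eval_low (hb : c.Bx w z) (w1 : ∀ j, 1 < w j) (s : ℝ) (j : Fin N) (x : Fin (d + 1) → QS S)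
    (y : Fin N → QS S) : MvPolynomial.eval (Sum.elim x y) (c.F s j) =
      MvPolynomial.eval (Sum.elim x fun l => if w l < w j then y l else 0) (c.F s j) := by
  rw [MvPolynomial.eval_eq', MvPolynomial.eval_eq']
  apply Finset.sum_congr rfl
  intro n hn
  congr 1
  apply Finset.prod_congr rfl
  rintro (a | l) _
  · rfl
  · show y l ^ n (Sum.inr l) = (if w l < w j then y l else 0) ^ n (Sum.inr l)
    by_cases hl : n (Sum.inr l) = 0
    · rw [hl, pow_zero, pow_zero]
    · have h1 := hb.deg s j n (MvPolynomial.mem_support_iff.mp hn)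
      have h2 : w l ≤ wgt (Sum.elim (fun _ => 1) w) n := by
        unfold wgt
        have h3 := Finset.single_le_sum (f := fun a => (n a : ℝ) * Sum.elim (fun _ => (1 : ℝ)) w a)
          (fun a _ => by
            rcases a with a | a
            · exact mul_nonneg (Nat.cast_nonneg _) zero_le_one
            · exact mul_nonneg (Nat.cast_nonneg _) (by
                show 0 ≤ w a
                linarith [w1 a])) (Finset.mem_univ (Sum.inr l : Fin (d + 1) ⊕ Fin N))
        refine le_trans ?_ h3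
        show w l ≤ (n (Sum.inr l) : ℝ) * w l
        have h4 : (1 : ℝ) ≤ n (Sum.inr l) := Nat.one_le_cast.mpr (Nat.one_le_iff_ne_zero.mpr hl)
        nlinarith [w1 l]
      rw [if_pos (h2.trans_lt h1)]

/-- the value of the frame is known at the level `r` if the lower box coordinates are known at the level `r` -/
theorem frame_le (hb : c.Bx w z) (w1 : ∀ j, 1 < w j) {s : ℝ} {A : S.L} (hK : c.K s ≤ A) (hP : c.P ≤ A) {k : ℝ}
    (hk : k ≤ 1) (j : Fin N) (hl : ∀ l, w l < w j → dg (c.γ s l) k ≤ A) :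
    dg (MvPolynomial.eval (Sum.elim (fun i => c.q i - c.q0 s i) (c.γ s)) (c.F s j)) k ≤ A := by
  classical
  rw [eval_low hb w1, MvPolynomial.eval_eq']
  apply (Kn S k hk A).sum_mem
  intro n _
  apply (Kn S k hk A).mul_mem ((dg_mono _ hk).trans ((F_le hb s j n).trans hK))
  apply (Kn S k hk A).prod_mem
  rintro (a | l) _
  · apply (Kn S k hk A).pow_mem
    exact (dg_mono _ hk).trans ((dg_sub_le _ _ le_rfl).trans (sup_le ((dg_le_vd c.q 1 a).trans hP)
      ((q0_le hb s a).trans hK)))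
  · apply (Kn S k hk A).pow_mem
    show dg (if w l < w j then c.γ s l else 0) k ≤ A
    by_cases h : w l < w j
    · rw [if_pos h]
      exact hl l h
    · rw [if_neg h]
      exact (Kn S k hk A).zero_mem

/-- box coordinates from the point -/
theorem ga_le (hb : c.Bx w z) (w1 : ∀ j, 1 < w j) {s : ℝ} (hs : 0 ≤ s) (hs1 : w z * s ≤ 1) {A : S.L}
    (hK : c.K s ≤ A) (hP : c.P ≤ A) {k : ℝ} (hk : k ≤ 1) : ∀ (n : ℕ) (j : Fin N),
    (univ.filter fun l => w l < w j).card ≤ n → (∀ l, (l = j ∨ w l < w j) → dg (c.R l) k ≤ A) →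
      dg (c.γ s j) k ≤ A := by
  classical
  intro n
  induction n with
  | zero =>
    intro j hj hR
    have h1 : c.γ s j = c.R j -
        MvPolynomial.eval (Sum.elim (fun i => c.q i - c.q0 s i) (c.γ s)) (c.F s j) := by
      rw [hb.fR s hs hs1 j]
      ring
    rw [h1]
    refine (dg_sub_le _ _ hk).trans (sup_le (hR j (Or.inl rfl)) (frame_le hb w1 hK hP hk j ?_))
    intro l hl
    have h2 : l ∈ univ.filter fun l => w l < w j := Finset.mem_filter.mpr ⟨Finset.mem_univ l, hl⟩
    rw [Finset.card_eq_zero.mp (Nat.le_zero.mp hj)] at h2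
    exact absurd h2 (Finset.notMem_empty l)
  | succ n ih =>
    intro j hj hR
    have h1 : c.γ s j = c.R j -
        MvPolynomial.eval (Sum.elim (fun i => c.q i - c.q0 s i) (c.γ s)) (c.F s j) := by
      rw [hb.fR s hs hs1 j]
      ring
    rw [h1]
    refine (dg_sub_le _ _ hk).trans (sup_le (hR j (Or.inl rfl)) (frame_le hb w1 hK hP hk j ?_))
    intro l hl
    apply ih l
    · have h2 : (univ.filter fun l' => w l' < w l) ⊂ univ.filter fun l' => w l' < w j := by
        rw [Finset.ssubset_iff_of_subset]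
        · exact ⟨l, Finset.mem_filter.mpr ⟨Finset.mem_univ l, hl⟩, fun h => lt_irrefl _ (Finset.mem_filter.mp h).2⟩
        · intro x hx
          exact Finset.mem_filter.mpr ⟨Finset.mem_univ x, (Finset.mem_filter.mp hx).2.trans hl⟩
      have h3 := Finset.card_lt_card h2
      omega
    · rintro l' (rfl | hl')
      · exact hR _ (Or.inr hl)
      · exact hR _ (Or.inr (hl'.trans hl))

theorem ga_le' (hb : c.Bx w z) (w1 : ∀ j, 1 < w j) {s : ℝ} (hs : 0 ≤ s) (hs1 : w z * s ≤ 1) {A : S.L}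
    (hK : c.K s ≤ A) (hP : c.P ≤ A) {k : ℝ} (hk : k ≤ 1) (j : Fin N)
    (hR : ∀ l, (l = j ∨ w l < w j) → dg (c.R l) k ≤ A) : dg (c.γ s j) k ≤ A :=
  ga_le hb w1 hs hs1 hK hP hk _ j le_rfl hR

/-- the point from the box coordinates -/
theorem R_le (hb : c.Bx w z) (w1 : ∀ j, 1 < w j) {s : ℝ} (hs : 0 ≤ s) (hs1 : w z * s ≤ 1) {A : S.L}
    (hK : c.K s ≤ A) (hP : c.P ≤ A) {k : ℝ} (hk : k ≤ 1) (j : Fin N)
    (hR : ∀ l, (l = j ∨ w l < w j) → dg (c.γ s l) k ≤ A) : dg (c.R j) k ≤ A := by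
  rw [hb.fR s hs hs1 j]
  exact (dg_add_le _ _ hk).trans (sup_le (frame_le hb w1 hK hP hk j fun l hl => hR l (Or.inr hl))
    (hR j (Or.inl rfl)))

variable {ρ : ℝ}

theorem M_le (z : Fin N) {j : Fin N} (hj : j ≠ z) (k : ℝ) : dg (c.R j) k ≤ vd (c.M z) k :=
  dg_le_vd (c.M z) k ⟨j, hj⟩

/-- the numbers of a corner -/
def hcor (hA : c.Ax w z ρ) : HCor S.L where
  F := ⊥
  q := c.P
  M := fun k => vd (c.M z) k
  z := fun k => dg (c.R z) k
  be := fun s => c.K s
  B := 1
  N := (N : ℝ) - 1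
  W := ∑ j ∈ univ.erase z, w j
  d := (d : ℝ) + 1
  w := w z
  A₀ := (d : ℝ) + 1 + (∑ j ∈ univ.erase z, w j) + (1 - ρ) * w z
  hB := zero_le_one
  hw := one_pos.trans (hA.w1 z)
  Fq := bot_le
  monoM := fun k k' _ h _ => vd_mono _ h
  monoz := fun k k' _ h _ => dg_mono _ h
  hbe := fun s hs hs1 => by
    rw [h_bot]
    exact hA.num.hbe s hs hs1
  pr0 := fun s hs hs1 => hA.num.pr0 s hs hs1
  pr1 := fun k hk hk1 => hA.num.pr1 k hk hk1
  pr2 := fun s k hs hk hk1 => hA.num.pr2 s k hs hk hk1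
  zk := fun s hs hs1 => by
    apply R_le hA.bx hA.w1 hs hs1 le_sup_left (le_sup_right.trans le_sup_right) hs1
    intro l hl
    by_cases hlz : l = z
    · subst hlz
      have h1 := dg_of_mem_Id (hA.bx.fγ s hs hs1 l) le_rfl hs1
      rw [h1]
      exact bot_le
    · apply ga_le' hA.bx hA.w1 hs hs1 le_sup_left (le_sup_right.trans le_sup_right) hs1
      intro l' hl'
      refine le_trans (M_le z (j := l') ?_ _) (le_sup_left.trans le_sup_right)
      rintro rfl
      rcases hl with rfl | hl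
      · exact hlz rfl
      · rcases hl' with rfl | hl'
        · exact hlz rfl
        · exact absurd (hl'.trans hl) (lt_irrefl _)

theorem hcor_vis (hA : c.Ax w z ρ) : (hcor hA).Vis := fun s hs hs1 => hA.num.vis s hs hs1

theorem hcor_κ (hA : c.Ax w z ρ) : (hcor hA).κ = 1 - ρ := by
  have h1 := (hcor hA).κ_mul
  have h2 : (hcor hA).w = w z := rfl
  have h3 : (hcor hA).A₀ - (hcor hA).d - (hcor hA).W = (1 - ρ) * w z := by
    show (d : ℝ) + 1 + (∑ j ∈ univ.erase z, w j) + (1 - ρ) * w z - ((d : ℝ) + 1) - ∑ j ∈ univ.erase z, w j = _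
    ring
  rw [h2, h3] at h1
  have h4 : w z ≠ 0 := (one_pos.trans (hA.w1 z)).ne'
  exact mul_right_cancel₀ h4 h1

/-- `h(R_1 | q) = N - ρ` -/
theorem h_R_P (hA : c.Ax w z ρ) : h (vd c.R 1) c.P = (N : ℝ) - ρ := by
  have h1 : h (vd c.R 1) c.P = h (vd (c.M z) 1 ⊔ dg (c.R z) 1) c.P := by
    apply h_congr_left
    · rw [vd_le]
      intro j
      by_cases hj : j = z
      · rw [hj]
        exact le_sup_right.trans le_sup_left
      · exact ((M_le z hj 1).trans le_sup_left).trans le_sup_left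
    · refine sup_le ?_ ((dg_le_vd c.R 1 z).trans le_sup_left)
      rw [vd_le]
      intro j
      exact (dg_le_vd c.R 1 j.1).trans le_sup_left
  have h2 : h (dg (c.R z) 1) (vd (c.M z) 1 ⊔ c.P) = (1 - ρ) * 1 := by
    have h3 := (hcor_vis hA).h_z_O zero_le_one le_rfl
    rw [hcor_κ] at h3
    exact h3
  rw [h1, h_chain, hA.num.pr1 1 zero_le_one le_rfl, h2]
  ring

end

end Pool.Agent.Helper79.HLD
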