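import Pool.Agent.Helper79.HLD.Fr
import Pool.Agent.Helper13.AM.Der

/-! HLD: the zoom. -/

set_option autoImplicit false
set_option linter.unusedSectionVars false

namespace Pool.Agent.Helper79.HLD

open Finset Filter Topology Pool.Agent.Helper69.RK Pool.Agent.Helper31.EC Pool.Agent.Helper31.EC.Sp
open Pool.Agent.Helper31.EC.QS Pool.Agent.Helper57.TA Pool.Agent.Helper21.DO Pool.Agent.Helper79.JET
open Pool.Agent.Helper13.AM Pool.Agent.Helper38.NS Pool.Agent.Helper33.CM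

noncomputable section

variable {S : Sp} {d N r : ℕ} {c : CD S d N r} {w : Fin N → ℝ} {z : Fin N} {ρ : ℝ}

section space

variable {s e : ℝ} {X : Fin (d + 1) → QS S} {Y : Fin N → QS S}

theorem K_le_O (hA : c.Ax w z ρ) (hs : 0 ≤ s) (hs1 : w z * s ≤ 1) : c.K s ≤ c.O :=
  (hA.bx.pt s hs hs1).trans (sup_le_sup (vd_mono _ hs1) (vd_mono _ hs1))

theorem wse (hA : c.Ax w z ρ) (hs : 0 ≤ s) (hse : w z * s + e ≤ 1) (j : Fin N) : w j * s + e ≤ 1 :=
  (add_le_add_left (mul_le_mul_of_nonneg_right (hA.wz j) hs) e).trans hse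

theorem sse (hA : c.Ax w z ρ) (hs : 0 ≤ s) (hse : w z * s + e ≤ 1) : s + e ≤ 1 := by
  have h1 := mul_le_mul_of_nonneg_right (hA.w1 z).le hs
  linarith

/-- digits of the unit box coordinates are known if the lower box coordinates are -/
theorem Y_le (hA : c.Ax w z ρ) (hs : 0 ≤ s) (he : 0 < e) (hse : w z * s + e ≤ 1)
    (hY : ∀ j, c.γ s j = sc S (w j * s) * Y j) {A : S.L} (hK : c.K s ≤ A) (hP : c.P ≤ A) (j : Fin N)
    (hR : ∀ l, (l = j ∨ w l < w j) → dg (c.R l) 1 ≤ A) : dg (Y j) e ≤ A := by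
  have hw : 0 ≤ w j * s := mul_nonneg (by linarith [hA.w1 j]) hs
  have h1 := dg_of_sc hw (by linarith : w j * s ≤ w j * s + e) (wse hA hs hse j) (Y j)
  rw [add_sub_cancel_left, ← hY] at h1
  refine h1.trans (ga_le' hA.bx hA.w1 hs (by linarith) hK hP (wse hA hs hse j) j ?_)
  intro l hl
  exact (dg_mono _ (wse hA hs hse j)).trans (hR l hl)

theorem Y_le_O (hA : c.Ax w z ρ) (hs : 0 ≤ s) (he : 0 < e) (hse : w z * s + e ≤ 1)
    (hY : ∀ j, c.γ s j = sc S (w j * s) * Y j) : vd Y e ≤ c.O := by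
  rw [vd_le]
  intro j
  exact Y_le hA hs he hse hY (K_le_O hA hs (by linarith)) le_sup_left j fun l _ =>
    (dg_le_vd c.R 1 l).trans le_sup_right

theorem X_le (hA : c.Ax w z ρ) (hs : 0 ≤ s) (he : 0 < e) (hse : w z * s + e ≤ 1)
    (hX : ∀ i, c.q i - c.q0 s i = sc S s * X i) : vd X e ≤ c.K s ⊔ c.P := by
  rw [vd_le]
  intro i
  have h1 := dg_of_sc hs (by linarith : s ≤ s + e) (sse hA hs hse) (X i)
  rw [add_sub_cancel_left, ← hX] at h1
  refine h1.trans ((dg_mono _ (sse hA hs hse)).trans ((dg_sub_le _ _ le_rfl).trans (sup_le ?_ ?_)))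
  · exact (dg_le_vd c.q 1 i).trans le_sup_right
  · exact (q0_le hA.bx s i).trans le_sup_left

/-- the unit box coordinates without `z` -/
def YM (z : Fin N) (Y : Fin N → QS S) : {j : Fin N // j ≠ z} → QS S := fun j => Y j.1

theorem lower_ne {j l : Fin N} (hA : c.Ax w z ρ) (hj : j ≠ z) (hl : l = j ∨ w l < w j) : l ≠ z := by
  rintro rfl
  rcases hl with h | h
  · exact hj h.symm
  · exact absurd (h.trans_le (hA.wz j)) (lt_irrefl _)

theorem sum_sub (z : Fin N) (f : Fin N → ℝ) : ∑ j : {j : Fin N // j ≠ z}, f j.1 = ∑ j ∈ univ.erase z, f j := by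
  classical
  rw [← Finset.sum_subtype (univ.erase z) (p := fun j => j ≠ z) (by intro x; simp) f]

theorem card_sub (z : Fin N) : ((Fintype.card {j : Fin N // j ≠ z} : ℕ) : ℝ) = (N : ℝ) - 1 := by
  have h1 := sum_sub z (fun _ => (1 : ℝ))
  rw [Finset.sum_const, Finset.sum_const, nsmul_eq_mul, nsmul_eq_mul, mul_one, mul_one,
    Finset.card_erase_of_mem (Finset.mem_univ z)] at h1
  have h2 : (Finset.univ : Finset (Fin N)).card = N := by simp
  rw [h2] at h1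
  have h3 : 1 ≤ N := Nat.succ_le_of_lt (Nat.lt_of_le_of_lt (Nat.zero_le _) z.isLt)
  rw [Nat.cast_sub h3, Nat.cast_one] at h1
  exact h1

/-- (α) -/
theorem h_YM (hA : c.Ax w z ρ) (hs : 0 ≤ s) (he : 0 < e) (hse : w z * s + e ≤ 1)
    (hY : ∀ j, c.γ s j = sc S (w j * s) * Y j) : ((N : ℝ) - 1) * e ≤ h (vd (YM z Y) e) (c.K s ⊔ c.P) := by
  have hs1 : w z * s ≤ 1 := by linarith
  obtain ⟨g, hg⟩ : ∃ g : {j : Fin N // j ≠ z} → S.L, ∀ j, g j = dg (Y j.1) (w z * s + e - w j.1 * s) :=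
    ⟨fun j => dg (Y j.1) (w z * s + e - w j.1 * s), fun _ => rfl⟩
  obtain ⟨U, hU⟩ : ∃ U : S.L, U = Finset.univ.sup g := ⟨_, rfl⟩
  have hUj : ∀ j : Fin N, j ≠ z → dg (Y j) (w z * s + e - w j * s) ≤ U := by
    intro j hj
    have h0 := Finset.le_sup (f := g) (Finset.mem_univ (⟨j, hj⟩ : {j : Fin N // j ≠ z}))
    rw [hg, ← hU] at h0
    exact h0
  have hle : ∀ j, w j * s ≤ w z * s := fun j => mul_le_mul_of_nonneg_right (hA.wz j) hs
  have h1 : vd (c.M z) (w z * s + e) ≤ U ⊔ (c.K s ⊔ c.P) := by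
    rw [vd_le]
    rintro ⟨j, hj⟩
    show dg (c.R j) _ ≤ _
    apply R_le hA.bx hA.w1 hs hs1 (le_sup_left.trans le_sup_right) (le_sup_right.trans le_sup_right) hse
    intro l hl
    rw [hY l]
    have hw : 0 ≤ w l * s := mul_nonneg (by linarith [hA.w1 l]) hs
    have hlz := lower_ne hA hj hl
    refine (dg_sc_mul hw ?_ hse _).trans ((hUj l hlz).trans le_sup_left)
    linarith [hle l]
  have h2 := hA.num.pr2 s (w z * s + e) hs (by linarith) hse
  have h3 : h (vd (c.M z) (w z * s + e)) (c.K s ⊔ c.P) ≤ h U (c.K s ⊔ c.P) := by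
    refine (h_mono h1).trans ?_
    rw [h_sup_right_of_le le_rfl]
  have h4 := h_triangle U (vd (YM z Y) e) (c.K s ⊔ c.P)
  have h5 : h U (vd (YM z Y) e ⊔ (c.K s ⊔ c.P)) ≤
      ∑ j : {j : Fin N // j ≠ z}, ((w z * s + e - w j.1 * s) - e) := by
    rw [hU]
    refine (h_finsup_le Finset.univ _ _).trans ?_
    apply Finset.sum_le_sum
    intro j _
    rw [hg]
    refine (h_anti ((dg_le_vd (YM z Y) e j).trans le_sup_left)).trans (h_dg_dg _ ?_)
    linarith [hle j.1]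
  have h6 : ∑ j : {j : Fin N // j ≠ z}, ((w z * s + e - w j.1 * s) - e) =
      ((N : ℝ) - 1) * (w z * s) - (∑ j ∈ univ.erase z, w j) * s := by
    have h7 : ∀ j : {j : Fin N // j ≠ z}, (w z * s + e - w j.1 * s) - e = w z * s - w j.1 * s := fun j => by ring
    simp only [h7]
    rw [Finset.sum_sub_distrib, sum_sub z (fun j => w j * s), Finset.sum_const, nsmul_eq_mul, Finset.sum_mul]
    congr 2
    exact card_sub z
  rw [h6] at h5
  rw [h2] at h3
  linarith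

/-- (β) -/
theorem h_Yz (hA : c.Ax w z ρ) (hs : 0 ≤ s) (he : 0 < e) (hse : w z * s + e ≤ 1)
    (hY : ∀ j, c.γ s j = sc S (w j * s) * Y j) :
    (1 - ρ) * e ≤ h (dg (Y z) e) (vd (YM z Y) e ⊔ (c.K s ⊔ c.P)) := by
  have hs1 : w z * s ≤ 1 := by linarith
  obtain ⟨A, hAd⟩ : ∃ A : S.L, A = c.K s ⊔ (vd (c.M z) 1 ⊔ c.P) := ⟨_, rfl⟩
  have hKA : c.K s ≤ A := by rw [hAd]; exact le_sup_left
  have hPA : c.P ≤ A := by rw [hAd]; exact le_sup_right.trans le_sup_right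
  have hMA : ∀ l, l ≠ z → dg (c.R l) 1 ≤ A := fun l hl => by
    rw [hAd]
    exact ((M_le z hl 1).trans le_sup_left).trans le_sup_right
  have h1 : vd (YM z Y) e ⊔ (c.K s ⊔ c.P) ≤ A := by
    refine sup_le ?_ (sup_le hKA hPA)
    rw [vd_le]
    rintro ⟨j, hj⟩
    exact Y_le hA hs he hse hY hKA hPA j fun l hl => hMA l (lower_ne hA hj hl)
  have h2 : dg (c.R z) (w z * s + e) ≤ dg (Y z) e ⊔ A := by
    apply R_le hA.bx hA.w1 hs hs1 (hKA.trans le_sup_right) (hPA.trans le_sup_right) hse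
    intro l hl
    by_cases hlz : l = z
    · subst hlz
      have hw : 0 ≤ w l * s := mul_nonneg (by linarith [hA.w1 l]) hs
      have h3 := dg_sc_mul hw (by linarith : w l * s ≤ w l * s + e) hse (Y l)
      rw [add_sub_cancel_left, ← hY l] at h3
      exact h3.trans le_sup_left
    · refine le_trans (ga_le' hA.bx hA.w1 hs hs1 hKA hPA hse l ?_) le_sup_right
      intro l' hl'
      exact (dg_mono _ hse).trans (hMA l' (lower_ne hA hlz hl'))
  have h3 := (hcor_vis hA).h_z_be (s := s) (k := w z * s + e) hs (by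
    show w z * s ≤ w z * s + e
    linarith) hse
  rw [hcor_κ] at h3
  have h4 : h (dg (c.R z) (w z * s + e)) A = (1 - ρ) * (w z * s + e - w z * s) := by
    rw [hAd]
    exact h3
  have h5 : h (dg (c.R z) (w z * s + e)) A ≤ h (dg (Y z) e) A := by
    refine (h_mono h2).trans ?_
    rw [h_sup_right_of_le le_rfl]
  have h6 := h_anti (A := dg (Y z) e) h1
  have h7 : (1 - ρ) * (w z * s + e - w z * s) = (1 - ρ) * e := by ring
  linarith

/-- the unit box coordinates are as full as possible given all digits of the base point -/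
theorem h_Y (hA : c.Ax w z ρ) (hs : 0 ≤ s) (he : 0 < e) (hse : w z * s + e ≤ 1)
    (hY : ∀ j, c.γ s j = sc S (w j * s) * Y j) : ((N : ℝ) - ρ) * e ≤ h (vd Y e) (c.K s ⊔ c.P) := by
  have h1 : vd (YM z Y) e ⊔ dg (Y z) e ≤ vd Y e := by
    refine sup_le ?_ (dg_le_vd Y e z)
    rw [vd_le]
    intro j
    exact dg_le_vd Y e j.1
  have h2 := h_mono (B := c.K s ⊔ c.P) h1
  rw [h_chain] at h2
  have h3 := h_YM hA hs he hse hY
  have h4 := h_Yz hA hs he hse hY
  have h5 : ((N : ℝ) - ρ) * e = ((N : ℝ) - 1) * e + (1 - ρ) * e := by ring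
  linarith

end space

section zoom

variable {s e : ℝ} {he : 0 < e} {h1 : e ≤ 1} {Z : ∀ k, Setoid (S.F k).Ω} {c' : CD (S.chg Z e he) d N r}

/-- real height over the curves of the larger corner -/
theorem zoom_time (hA : c.Ax w z ρ) (hs : 0 ≤ s) (hse : w z * s + e ≤ 1)
    (hz : c.ZR w z s e he h1 Z c') (i : Fin r) (hxi : c.K s ≤ c.xi i ⊔ dg (c.q 0) s) :
    h (dg (c'.q 0) 1) (chgL Z e he (c.xi i)) = 1 := by
  have hZ : Z = (hA.bx.bdd s).toInf.1 := funext hz.base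
  subst hZ
  obtain ⟨X, hX, hX'⟩ := hz.q 0
  have hK : cl (hA.bx.bdd s).toInf = c.K s := (io_eq _).symm
  rw [hX', cQ_dg _ _ _ _ _ le_rfl, h_chgL_inf, hK, mul_one]
  have hss := sse hA hs hse
  have h2 : h (dg X e) (c.xi i ⊔ c.K s) = e := by
    apply le_antisymm ((h_le_H _ _).trans (H_dg_le _ he.le))
    have h3 : dg (c.q 0) (s + e) ≤ dg X e ⊔ (c.xi i ⊔ c.K s) := by
      have e1 : c.q 0 = sc S s * X + c.q0 s 0 := by
        rw [← hX]
        ring
      rw [e1]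
      refine (dg_add_le _ _ hss).trans (sup_le ?_ ?_)
      · have h4 := dg_sc_mul hs (by linarith : s ≤ s + e) hss X
        rw [add_sub_cancel_left] at h4
        exact h4.trans le_sup_left
      · exact ((dg_mono _ hss).trans (q0_le hA.bx s 0)).trans (le_sup_right.trans le_sup_right)
    have h4 : h (dg (c.q 0) (s + e)) (c.xi i ⊔ c.K s) ≤ h (dg X e) (c.xi i ⊔ c.K s) := by
      refine (h_mono h3).trans ?_
      rw [h_sup_right_of_le le_rfl]
    have h5 : h (dg (c.q 0) (s + e)) (c.xi i ⊔ dg (c.q 0) s) ≤ h (dg (c.q 0) (s + e)) (c.xi i ⊔ c.K s) :=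
      h_anti (sup_le le_sup_left hxi)
    have h6 : s + e ≤ h (dg (c.q 0) (s + e)) (c.xi i) := by
      have h7 := h_triangle (dg (c.q 0) 1) (dg (c.q 0) (s + e)) (c.xi i)
      rw [hA.ln.time i] at h7
      have h8 : h (dg (c.q 0) 1) (dg (c.q 0) (s + e) ⊔ c.xi i) ≤ 1 - (s + e) :=
        (h_anti le_sup_left).trans (h_dg_dg _ hss)
      linarith
    have h7 := h_triangle (dg (c.q 0) (s + e)) (dg (c.q 0) s) (c.xi i)
    rw [sup_comm (dg (c.q 0) s)] at h7
    have h8 := (h_le_H (dg (c.q 0) s) (c.xi i)).trans (H_dg_le (c.q 0) hs)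
    linarith
  rw [h2, div_self he.ne']

/-- the Markov property -/
theorem zoom_mk (hA : c.Ax w z ρ) (hs : 0 ≤ s) (hse : w z * s + e ≤ 1)
    (hz : c.ZR w z s e he h1 Z c') (hA' : c'.Ax w z ρ) (i : Fin r) :
    I (vd c'.R 1) (chgL Z e he (c.b i) ⊔ vd c'.q 1) (vd c'.q 1 ⊔ vd (c'.u i) 1) = 0 := by
  have hZ : Z = (hA.bx.bdd s).toInf.1 := funext hz.base
  subst hZ
  choose X hX hX' using hz.q
  choose Y hY hY' using hz.R
  have hs1 : w z * s ≤ 1 := by linarith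
  have hK : cl (hA.bx.bdd s).toInf = c.K s := (io_eq _).symm
  have hq' : vd c'.q 1 = chgL _ e he (vd X e) := by
    have h2 := cQ_vd (hA.bx.bdd s).toInf.1 e he h1 X le_rfl
    rw [mul_one] at h2
    rw [← h2]
    exact vd_congr hX' 1
  have hR' : vd c'.R 1 = chgL _ e he (vd Y e) := by
    have h2 := cQ_vd (hA.bx.bdd s).toInf.1 e he h1 Y le_rfl
    rw [mul_one] at h2
    rw [← h2]
    exact vd_congr hY' 1
  have hu' : vd (c'.u i) 1 ≤ chgL _ e he (vd (c.u i) 1) := by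
    have h2 := cQ_vd (hA.bx.bdd s).toInf.1 e he h1 (c.u i) le_rfl
    rw [mul_one] at h2
    rw [vd_congr (hz.u i) 1, h2]
    exact chgL_mono _ _ _ (vd_mono _ h1)
  have hXK := X_le hA hs he hse hX
  -- numbers
  have n1 : h (vd Y e) (vd X e ⊔ c.K s) = ((N : ℝ) - ρ) * e := by
    have h2 := h_R_P hA'
    have h3 : c'.P = vd c'.q 1 := rfl
    rw [h3, hq', hR', h_chgL_inf, hK] at h2
    rw [← h2, div_mul_cancel₀ _ he.ne']
  have n2 := h_Y hA hs he hse hY
  have hI1 : I c.P (vd Y e) (vd X e ⊔ c.K s) = 0 := by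
    apply le_antisymm _ (I_nonneg _ _ _)
    rw [I_eq', n1]
    have h2 : c.P ⊔ (vd X e ⊔ c.K s) ≤ c.K s ⊔ c.P := sup_le le_sup_right (sup_le hXK le_sup_left)
    have h3 := h_anti (A := vd Y e) h2
    linarith
  have hI2 : I (vd (c.u i) 1) (vd Y e) (c.P ⊔ (vd X e ⊔ c.K s)) = 0 := by
    have h2 : I c.O (vd (c.u i) 1) (⊥ : S.L) = 0 := by
      rw [I_comm]
      exact I_zero_mono hA.ln.r1 ((Finset.le_sup (f := fun i => vd (c.u i) 1) (Finset.mem_univ i)).trans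
        le_sup_left) le_sup_left
    have hKO := K_le_O hA hs hs1
    have hPO : c.P ≤ c.O := le_sup_left
    have h3 : I c.O (vd (c.u i) 1) ((c.P ⊔ (vd X e ⊔ c.K s)) ⊔ ⊥) = 0 := by
      apply le_antisymm _ (I_nonneg _ _ _)
      rw [← h2]
      exact I_cond_le (sup_le hPO (sup_le (hXK.trans (sup_le hKO hPO)) hKO))
    rw [sup_bot_eq] at h3
    rw [I_comm]
    exact I_zero_mono h3 ((Y_le_O hA hs he hse hY).trans le_sup_left) le_sup_left
  have hI3 : I (c.P ⊔ vd (c.u i) 1) (vd Y e) (vd X e ⊔ c.K s) = 0 := by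
    rw [I_chain, hI1, hI2, add_zero]
  have hI4 : I (chgL (hA.bx.bdd s).toInf.1 e he (c.P ⊔ vd (c.u i) 1)) (vd c'.R 1) (vd c'.q 1) = 0 := by
    rw [hq', hR', I_chgL_inf, hK, hI3, zero_div]
  have hb : c.b i ≤ c.P ⊔ vd (c.u i) 1 := by
    rw [hA.ln.gen i]
    refine sup_le ?_ le_sup_right
    rw [vd_le]
    intro a
    have h2 : c.a i a = c.q a - c.q 0 * c.u i a := by
      rw [hA.ln.line i a]
      ring
    rw [h2]
    refine (dg_sub_le _ _ le_rfl).trans (sup_le ((dg_le_vd c.q 1 a).trans le_sup_left)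
      ((dg_mul_le _ _ le_rfl).trans (sup_le ((dg_le_vd c.q 1 0).trans le_sup_left) ?_)))
    exact (dg_le_vd (c.u i) 1 a).trans le_sup_right
  have hI5 : I (chgL (hA.bx.bdd s).toInf.1 e he (c.P ⊔ vd (c.u i) 1)) (vd c'.R 1)
      (vd (c'.u i) 1 ⊔ vd c'.q 1) = 0 := by
    apply le_antisymm _ (I_nonneg _ _ _)
    rw [← hI4]
    apply I_cond_le
    refine hu'.trans (chgL_mono _ _ _ le_sup_right)
  rw [I_comm]
  rw [sup_comm (vd (c'.u i) 1)] at hI5
  refine I_zero_mono hI5 (sup_le ((chgL_mono _ _ _ hb).trans le_sup_left) (le_sup_left.trans le_sup_right))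
    le_sup_left

/-- HLD for a zoom -/
theorem hld_of (hA : c.Ax w z ρ) (hs : 0 ≤ s) (hse : w z * s + e ≤ 1)
    (hz : c.ZR w z s e he h1 Z c') (hA' : c'.Ax w z ρ) (hxi : ∀ i, c.K s ≤ c.xi i ⊔ dg (c.q 0) s)
    (hxi' : ∀ i, c'.K (1 / w z) ≤ c'.xi i ⊔ dg (c'.q 0) (1 / w z)) {κ : ℝ} (hκ : 0 < κ) (hκ1 : κ ≤ 1) :
    ∃ κ' : ℝ, 0 < κ' ∧ κ' ≤ κ ∧ ∀ H : Fin N → MvPolynomial (Fin (d + 1) ⊕ Fin N) (QS (S.chg Z e he)), Tri w H →
      FlatH c' κ H (fun i => chgL Z e he (c.b i)) (fun i => chgL Z e he (c.xi i)) → FlatH c' κ' H c'.b c'.xi := by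
  classical
  obtain ⟨j0, -, hj0⟩ := Finset.exists_min_image Finset.univ w ⟨z, Finset.mem_univ z⟩
  have hwz : 0 < w z := one_pos.trans (hA.w1 z)
  have hv : 0 < w j0 * (1 / w z) - 1 * (1 / w z) := by
    have h2 : w j0 * (1 / w z) - 1 * (1 / w z) = (w j0 - 1) / w z := by ring
    rw [h2]
    exact div_pos (by linarith [hA.w1 j0]) hwz
  refine ⟨min κ (w j0 * (1 / w z) - 1 * (1 / w z)), lt_min hκ hv, min_le_left _ _, ?_⟩
  intro H hH hF i j
  obtain ⟨k, e', he1, he2, he3⟩ := hF i j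
  exact core hA'.ln hA'.bx hA'.w1 (one_div_pos.mpr hwz) (by rw [mul_one_div_cancel hwz.ne'])
    (fun j => hj0 j (Finset.mem_univ j)) i (hxi' i) (chgL_mono _ _ _ le_sup_left) (hz.xi i)
    (zoom_time hA hs hse hz i (hxi i)) (zoom_mk hA hs hse hz hA' i) hκ1 (lt_min hκ hv).le (min_le_left _ _)
    (min_le_right _ _) H hH.real j e' he1 he2 he3

end zoom

/-- [HLD] -/
theorem st_hld : ST_HLD := by
  intro d N r w z ρ C hC S c hc s e he h1 hs hse Z c' hz hc' κ hκ hκ1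
  have hA := hC.ax S c hc
  have hA' := hC.ax _ c' hc'
  have hwz : 0 < w z := one_pos.trans (hA.w1 z)
  exact hld_of hA hs hse hz hA' (fun i => hA.bx.xi s hs (by linarith) i)
    (fun i => hA'.bx.xi _ (one_div_pos.mpr hwz).le (by rw [mul_one_div_cancel hwz.ne']) i) hκ hκ1

end

end Pool.Agent.Helper79.HLD
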