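import Pool.Agent.Helper79.HLD.Zm

/-! HLD for one coordinate at a time: no flatness of the other coordinates is needed. -/

set_option autoImplicit false
set_option linter.unusedSectionVars false

namespace Pool.Agent.Helper79.HLD

open Finset Filter Topology Pool.Agent.Helper69.RK Pool.Agent.Helper31.EC Pool.Agent.Helper31.EC.Sp
open Pool.Agent.Helper31.EC.QS Pool.Agent.Helper57.TA Pool.Agent.Helper21.DO Pool.Agent.Helper79.JET
open Pool.Agent.Helper13.AM Pool.Agent.Helper38.NS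

noncomputable section

/-- the function `f` is flat up to level `κ` along the height `t`: coefficients of positive degree known to `B`, the
intercept to `X` -/
def FlaF {S : Sp} (f t : QS S) (κ : ℝ) (B X : S.L) : Prop :=
  ∃ (k : ℕ) (e : Fin (k + 1) → QS S), (∀ l : Fin k, dg (e l.succ) 1 ≤ B) ∧ dg (e 0) 1 ≤ X ∧ f - pe e t ∈ Id S κ

theorem flatH_iff {S : Sp} {d N r : ℕ} (c : CD S d N r) (κ : ℝ)
    (H : Fin N → MvPolynomial (Fin (d + 1) ⊕ Fin N) (QS S)) (B X : Fin r → S.L) :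
    FlatH c κ H B X ↔ ∀ i j, FlaF (c.cR H j) (c.q 0) κ (B i) (X i) := Iff.rfl

theorem FlaF.mono {S : Sp} {f t : QS S} {κ κ' : ℝ} {B X B' X' : S.L} (h : FlaF f t κ B X) (hκ : κ' ≤ κ)
    (hB : B ≤ B') (hX : X ≤ X') : FlaF f t κ' B' X' := by
  obtain ⟨k, e, h1, h2, h3⟩ := h
  exact ⟨k, e, fun l => (h1 l).trans hB, h2.trans hX, Id_mono hκ h3⟩

section zoom

variable {S : Sp} {d N r : ℕ} {c : CD S d N r} {w : Fin N → ℝ} {z : Fin N} {ρ : ℝ}
variable {s e : ℝ} {he : 0 < e} {h1 : e ≤ 1} {Z : ∀ k, Setoid (S.F k).Ω} {c' : CD (S.chg Z e he) d N r}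

/-- HLD for a zoom, one coordinate at a time -/
theorem hld_co (hA : c.Ax w z ρ) (hs : 0 ≤ s) (hse : w z * s + e ≤ 1)
    (hz : c.ZR w z s e he h1 Z c') (hA' : c'.Ax w z ρ) (hxi : ∀ i, c.K s ≤ c.xi i ⊔ dg (c.q 0) s)
    (hxi' : ∀ i, c'.K (1 / w z) ≤ c'.xi i ⊔ dg (c'.q 0) (1 / w z)) {κ : ℝ} (hκ : 0 < κ) (hκ1 : κ ≤ 1) :
    ∃ κ' : ℝ, 0 < κ' ∧ κ' ≤ κ ∧ ∀ H : Fin N → MvPolynomial (Fin (d + 1) ⊕ Fin N) (QS (S.chg Z e he)),
      (∀ j, H j ∈ PK ⊥) → ∀ i j, FlaF (c'.cR H j) (c'.q 0) κ (chgL Z e he (c.b i)) (chgL Z e he (c.xi i)) →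
        FlaF (c'.cR H j) (c'.q 0) κ' (c'.b i) (c'.xi i) := by
  classical
  obtain ⟨j0, -, hj0⟩ := Finset.exists_min_image Finset.univ w ⟨z, Finset.mem_univ z⟩
  have hwz : 0 < w z := one_pos.trans (hA.w1 z)
  have hv : 0 < w j0 * (1 / w z) - 1 * (1 / w z) := by
    have h2 : w j0 * (1 / w z) - 1 * (1 / w z) = (w j0 - 1) / w z := by ring
    rw [h2]
    exact div_pos (by linarith [hA.w1 j0]) hwz
  refine ⟨min κ (w j0 * (1 / w z) - 1 * (1 / w z)), lt_min hκ hv, min_le_left _ _, ?_⟩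
  intro H hH i j hF
  obtain ⟨k, e', he1, he2, he3⟩ := hF
  exact core hA'.ln hA'.bx hA'.w1 (one_div_pos.mpr hwz) (by rw [mul_one_div_cancel hwz.ne'])
    (fun j => hj0 j (Finset.mem_univ j)) i (hxi' i) (chgL_mono _ _ _ le_sup_left) (hz.xi i)
    (zoom_time hA hs hse hz i (hxi i)) (zoom_mk hA hs hse hz hA' i) hκ1 (lt_min hκ hv).le (min_le_left _ _)
    (min_le_right _ _) H hH j e' he1 he2 he3

end zoom

/-- [HLD] for one coordinate at a time, for classes -/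
theorem st_hld_co : ∀ (d N r : ℕ) (w : Fin N → ℝ) (z : Fin N) (ρ : ℝ) (C : ∀ S : Sp, CD S d N r → Prop),
    Cls d N r w z ρ C → ∀ (S : Sp) (c : CD S d N r), C S c → ∀ (s e : ℝ) (he : 0 < e) (h1 : e ≤ 1), 0 ≤ s →
      w z * s + e ≤ 1 → ∀ (Z : ∀ k, Setoid (S.F k).Ω) (c' : CD (S.chg Z e he) d N r), c.ZR w z s e he h1 Z c' →
        C _ c' → ∀ κ : ℝ, 0 < κ → κ ≤ 1 → ∃ κ' : ℝ, 0 < κ' ∧ κ' ≤ κ ∧
          ∀ H : Fin N → MvPolynomial (Fin (d + 1) ⊕ Fin N) (QS (S.chg Z e he)), (∀ j, H j ∈ PK ⊥) → ∀ i j,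
            FlaF (c'.cR H j) (c'.q 0) κ (chgL Z e he (c.b i)) (chgL Z e he (c.xi i)) →
              FlaF (c'.cR H j) (c'.q 0) κ' (c'.b i) (c'.xi i) := by
  intro d N r w z ρ C hC S c hc s e he h1 hs hse Z c' hz hc' κ hκ hκ1
  have hA := hC.ax S c hc
  have hA' := hC.ax _ c' hc'
  have hwz : 0 < w z := one_pos.trans (hA.w1 z)
  exact hld_co hA hs hse hz hA' (fun i => hA.bx.xi s hs (by linarith) i)
    (fun i => hA'.bx.xi _ (one_div_pos.mpr hwz).le (by rw [mul_one_div_cancel hwz.ne']) i) hκ hκ1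

end

end Pool.Agent.Helper79.HLD
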