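import Pool.Agent.Helper79.HLD.Vel

/-! A polynomial in a real variable whose value is known to the variable and to `A`: its coefficients are known to
`A`. -/

set_option autoImplicit false
set_option linter.unusedSectionVars false

namespace Pool.Agent.Helper79.HLD

open Finset Filter Topology Pool.Agent.Helper69.RK Pool.Agent.Helper31.EC Pool.Agent.Helper31.EC.Sp
open Pool.Agent.Helper31.EC.QS Pool.Agent.Helper57.TA Pool.Agent.Helper21.DO Pool.Agent.Helper79.JET
open Pool.Agent.Helper13.AM Pool.Agent.Helper38.NS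

noncomputable section

variable {S : Sp}

theorem vd_sume {ι ι' : Type} [Fintype ι] [Fintype ι'] (f : ι → QS S) (g : ι' → QS S) (r : ℝ) :
    vd (Sum.elim f g) r = vd f r ⊔ vd g r := by
  apply le_antisymm
  · rw [vd_le]
    rintro (a | a)
    · exact (dg_le_vd f r a).trans le_sup_left
    · exact (dg_le_vd g r a).trans le_sup_right
  · apply sup_le
    · rw [vd_le]
      intro a
      exact dg_le_vd (Sum.elim f g) r (Sum.inl a)
    · rw [vd_le]
      intro a
      exact dg_le_vd (Sum.elim f g) r (Sum.inr a)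

/-- COEFFICIENTS ARE KNOWN -/
theorem coef_known {k : ℕ} (e : Fin (k + 1) → QS S) (t : QS S) {ι : Type} [Fintype ι] (f : ι → QS S)
    (ht : h (dg t 1) (vd e 1 ⊔ vd f 1) = 1) {μ : ℝ} (hμ : μ ≤ 1) (hy : dg (pe e t) μ ≤ vd f 1 ⊔ dg t 1)
    (l : Fin (k + 1)) : dg (e l) μ ≤ vd f 1 := by
  classical
  obtain ⟨C⟩ := exists_CQ (Sum.elim e f) k
  rw [← vd_sume] at ht
  have h1 : Rl (fun i : Fin (k + 1) => (C.p i).qs t) C.v := C.rl_one t ht
  have h2 := h1.isUnit_vandermonde
  -- the common information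
  have hce : ∀ i a, (C.p i).qs (e a) = (C.p 0).qs (e a) := fun i a => C.com i 0 (Sum.inl a)
  have hcf : ∀ i, (C.p i).map (vd f 1) = (C.p 0).map (vd f 1) := by
    intro i
    rw [← (C.p i).qs_vd, ← (C.p 0).qs_vd]
    exact vd_congr (fun a => C.com i 0 (Sum.inr a)) 1
  obtain ⟨T, hT⟩ : ∃ T : C.W.L, T = vd (fun i : Fin (k + 1) => (C.p i).qs t) 1 := ⟨_, rfl⟩
  have htT : ∀ i, dg ((C.p i).qs t) 1 ≤ T := by
    intro i
    rw [hT]
    exact dg_le_vd (fun i : Fin (k + 1) => (C.p i).qs t) 1 i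
  have hM : ∀ i j, dg (Matrix.vandermonde (fun i : Fin (k + 1) => (C.p i).qs t) i j) μ ≤
      (C.p 0).map (vd f 1) ⊔ T := by
    intro i j
    rw [Matrix.vandermonde_apply]
    exact (Kn _ μ hμ _).pow_mem ((dg_mono _ hμ).trans ((htT i).trans le_sup_right)) _
  have hval : ∀ i, dg ((C.p i).qs (pe e t)) μ ≤ (C.p 0).map (vd f 1) ⊔ T := by
    intro i
    rw [(C.p i).qs_dg]
    refine (Pj.map_mono _ hy).trans ?_
    rw [Pj.map_sup, hcf i]
    refine sup_le_sup_left ?_ _
    rw [← (C.p i).qs_dg]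
    exact htT i
  have hsol : (fun a => (C.p 0).qs (e a)) =
      (Matrix.vandermonde fun i : Fin (k + 1) => (C.p i).qs t)⁻¹.mulVec fun i => (C.p i).qs (pe e t) := by
    have h3 : (fun i => (C.p i).qs (pe e t)) =
        (Matrix.vandermonde fun i : Fin (k + 1) => (C.p i).qs t).mulVec fun a => (C.p 0).qs (e a) := by
      funext i
      rw [← pe_eq_mulVec (fun a => (C.p 0).qs (e a)) (fun i : Fin (k + 1) => (C.p i).qs t) i, pe_map]
      congr 1
      funext a
      exact hce i a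
    rw [h3, Matrix.mulVec_mulVec, Matrix.nonsing_inv_mul _ h2, Matrix.one_mulVec]
  have h3 : dg ((C.p 0).qs (e l)) μ ≤ T ⊔ (C.p 0).map (vd f 1) := by
    have h4 := congrFun hsol l
    beta_reduce at h4
    rw [h4, sup_comm]
    unfold Matrix.mulVec dotProduct
    exact (Kn _ μ hμ _).sum_mem fun i _ => (Kn _ μ hμ _).mul_mem (inv_mem _ hμ _ hM h2 l i) (hval i)
  have h4 : dg ((C.p 0).qs (e l)) μ ≤ C.v ⊔ (C.p 0).map (vd f 1) := by
    refine le_trans ?_ le_sup_left
    unfold CQ.v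
    rw [(C.p 0).qs_dg]
    refine Pj.map_mono _ ((dg_mono _ hμ).trans ?_)
    exact dg_le_vd (Sum.elim e f) 1 (Sum.inl l)
  have h5 : I T C.v ((C.p 0).map (vd f 1)) = 0 := by
    have h6 : (C.p 0).map (vd f 1) ≤ C.v := by
      unfold CQ.v
      refine Pj.map_mono _ ?_
      rw [vd_sume]
      exact le_sup_right
    rw [I_zero_iff_h, sup_eq_left.mpr h6, hT]
    apply le_antisymm
    · exact h_anti h6
    · rw [h1]
      exact h_sd_le (fun i : Fin (k + 1) => (C.p i).qs t) Finset.univ _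
  have h6 := le_of_markov h3 h4 h5
  rw [(C.p 0).qs_dg, Pj.map_le] at h6
  exact h6

end

end Pool.Agent.Helper79.HLD
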