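import Pool.Agent.Helper79.HLD.Cof

/-! HLD on one space: coordinates which are flat over larger informations are flat over the digits of the base line to
the resolution. -/

set_option autoImplicit false
set_option linter.unusedSectionVars false

namespace Pool.Agent.Helper79.HLD

open Finset Filter Topology Pool.Agent.Helper69.RK Pool.Agent.Helper31.EC Pool.Agent.Helper31.EC.Sp
open Pool.Agent.Helper31.EC.QS Pool.Agent.Helper57.TA Pool.Agent.Helper21.DO Pool.Agent.Helper79.JET
open Pool.Agent.Helper13.AM Pool.Agent.Helper38.NS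

noncomputable section

variable {S : Sp}

theorem cP_coeff {k : ℕ} (c : Fin (k + 1) → QS S) (n : ℕ) :
    (cP c).coeff n = if h : n < k + 1 then c ⟨n, h⟩ else 0 := by
  unfold cP
  rw [Polynomial.finsetSum_coeff]
  by_cases h : n < k + 1
  · rw [dif_pos h, Finset.sum_eq_single (⟨n, h⟩ : Fin (k + 1))]
    · rw [Polynomial.coeff_C_mul, Polynomial.coeff_X_pow, if_pos rfl, mul_one]
    · intro b _ hb
      rw [Polynomial.coeff_C_mul, Polynomial.coeff_X_pow, if_neg, mul_zero]
      intro hc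
      exact hb (Fin.ext hc.symm)
    · intro hc
      exact absurd (Finset.mem_univ _) hc
  · rw [dif_neg h]
    apply Finset.sum_eq_zero
    intro b _
    rw [Polynomial.coeff_C_mul, Polynomial.coeff_X_pow, if_neg, mul_zero]
    intro hc
    exact h (hc ▸ b.isLt)

/-- the derivative does not see the intercept -/
theorem deriv_cP {k : ℕ} {e : Fin (k + 1) → QS S} {B : S.L} (he : ∀ l : Fin k, dg (e l.succ) 1 ≤ B) :
    Polynomial.derivative (cP e) ∈ PK1 B := by
  intro n
  rw [Polynomial.coeff_derivative, cP_coeff]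
  apply (Kn S 1 le_rfl B).mul_mem
  · by_cases h : n + 1 < k + 1
    · rw [dif_pos h]
      exact he ⟨n, Nat.lt_of_succ_lt_succ h⟩
    · rw [dif_neg h]
      exact (Kn S 1 le_rfl B).zero_mem
  · have h1 : ((n : QS S) + 1) = ((n + 1 : ℕ) : QS S) := by push_cast; rfl
    rw [h1]
    exact natCast_mem (Kn S 1 le_rfl B) _

theorem eval_PK1 {A : S.L} {P : Polynomial (QS S)} (hP : P ∈ PK1 A) (t : QS S) {μ : ℝ} (hμ : μ ≤ 1) :
    dg (P.eval t) μ ≤ A ⊔ dg t μ := by
  rw [Polynomial.eval_eq_sum_range]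
  exact (Kn S μ hμ _).sum_mem fun n _ => (Kn S μ hμ _).mul_mem ((dg_mono _ hμ).trans ((hP n).trans le_sup_left))
    ((Kn S μ hμ _).pow_mem (show dg t μ ≤ A ⊔ dg t μ from le_sup_right) _)

variable {d N r : ℕ} {c : CD S d N r} {w : Fin N → ℝ} {z : Fin N}

/-- HLD on one space -/
theorem core (hl : c.Ln) (hb : c.Bx w z) (w1 : ∀ j, 1 < w j) {s : ℝ} (hs : 0 < s) (hs1 : w z * s ≤ 1) {m : ℝ}
    (hm : ∀ j, m ≤ w j) (i : Fin r) (hxi : c.K s ≤ c.xi i ⊔ dg (c.q 0) s) {B X : S.L} (hBX : B ≤ X)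
    (hxX : c.xi i ≤ X) (hX : h (dg (c.q 0) 1) X = 1)
    (hmk : I (vd c.R 1) (B ⊔ vd c.q 1) (vd c.q 1 ⊔ vd (c.u i) 1) = 0) {κ μ : ℝ} (hκ1 : κ ≤ 1)
    (hμ0 : 0 ≤ μ) (hμκ : μ ≤ κ) (hμv : μ ≤ m * s - 1 * s)
    (H : Fin N → MvPolynomial (Fin (d + 1) ⊕ Fin N) (QS S)) (hH : ∀ j, H j ∈ PK ⊥) (j : Fin N) {k : ℕ}
    (e : Fin (k + 1) → QS S) (he : ∀ l : Fin k, dg (e l.succ) 1 ≤ B) (he0 : dg (e 0) 1 ≤ X)
    (hfl : c.cR H j - pe e (c.q 0) ∈ Id S κ) :
    ∃ (k' : ℕ) (e' : Fin (k' + 1) → QS S), (∀ l : Fin k', dg (e' l.succ) 1 ≤ c.b i) ∧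
      dg (e' 0) 1 ≤ c.xi i ∧ c.cR H j - pe e' (c.q 0) ∈ Id S μ := by
  classical
  have hμ1 : μ ≤ 1 := hμκ.trans hκ1
  obtain ⟨t, ht⟩ : ∃ t, t = c.q 0 := ⟨_, rfl⟩
  -- the path
  set path : Fin (d + 1) ⊕ Fin N → Polynomial (QS S) :=
    Sum.elim (fun a => Polynomial.C (c.a i a) + Polynomial.X * Polynomial.C (c.u i a)) (fun l => cP (c.cf i l))
    with hpath
  have hpe : (fun x => (path x).eval t) = c.pt := by
    funext x
    rcases x with a | a
    · show (Polynomial.C _ + Polynomial.X * Polynomial.C _ : Polynomial (QS S)).eval t = c.q a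
      rw [Polynomial.eval_add, Polynomial.eval_mul, Polynomial.eval_C, Polynomial.eval_C, Polynomial.eval_X, ht]
      exact (hl.line i a).symm
    · show (cP (c.cf i a)).eval t = c.R a
      rw [cP_eval, ht]
      exact (hl.curve i a).symm
  have hpk : ∀ x, path x ∈ PK1 (c.xi i) := by
    rintro (a | a)
    · exact (PK1 _).add_mem (PK1_C ((a_le hl i a).trans le_sup_left))
        ((PK1 _).mul_mem (PK1_X _) (PK1_C ((u_le hl i a).trans le_sup_left)))
    · exact cP_PK1 fun b => cf_le i a b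
  obtain ⟨G, hG⟩ : ∃ G : Polynomial (QS S), G = path (Sum.inr j) - MvPolynomial.aeval path (H j) := ⟨_, rfl⟩
  have hGk : G ∈ PK1 (c.xi i) := by
    rw [hG]
    exact (PK1 _).sub_mem (hpk _) (PK1_aeval (PK_mono bot_le (hH j)) _ hpk)
  have hGe : G.eval t = c.cR H j := by
    rw [hG, Polynomial.eval_sub, eval_aeval, hpe]
    have h2 : (path (Sum.inr j)).eval t = c.R j := congrFun hpe (Sum.inr j)
    rw [h2]
    rfl
  have hEk : cP e ∈ PK1 X := by
    apply cP_PK1
    intro a
    refine Fin.cases he0 (fun a => ?_) a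
    exact (he a).trans hBX
  have hd : (Polynomial.derivative (G - cP e)).eval t ∈ Id S κ := by
    apply deriv_small (G - cP e) t (A := X) ((PK1 X).sub_mem (fun n => (hGk n).trans hxX) hEk) _ hκ1
    · rw [Polynomial.eval_sub, hGe, cP_eval, ht]
      exact hfl
    · rw [ht]
      exact hX
  rw [Polynomial.derivative_sub, Polynomial.eval_sub] at hd
  -- the velocity
  obtain ⟨v, hv⟩ : ∃ v : Fin (d + 1) ⊕ Fin N → QS S, v = Sum.elim (c.u i) (fun l => fv c s i l) := ⟨_, rfl⟩
  have hvp : ∀ x, (Polynomial.derivative (path x)).eval t - v x ∈ Id S (m * s - 1 * s) := by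
    rintro (a | a)
    · have h9 : Polynomial.derivative (path (Sum.inl a)) = Polynomial.C (c.u i a) := by
        show Polynomial.derivative (Polynomial.C _ + Polynomial.X * Polynomial.C _) = _
        simp
      rw [h9, Polynomial.eval_C, hv]
      show c.u i a - c.u i a ∈ _
      rw [sub_self]
      exact Ideal.zero_mem _
    · rw [hv, ht]
      exact vel hl hb w1 hs hs1 hm i hxi a
  obtain ⟨vh, hvh⟩ : ∃ vh : QS S, vh = v (Sum.inr j) -
      ∑ x, MvPolynomial.eval c.pt (MvPolynomial.pderiv x (H j)) * v x := ⟨_, rfl⟩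
  have hG1 : (Polynomial.derivative G).eval t - vh ∈ Id S (m * s - 1 * s) := by
    have h2 : (Polynomial.derivative G).eval t = (Polynomial.derivative (path (Sum.inr j))).eval t -
        ∑ x, MvPolynomial.eval c.pt (MvPolynomial.pderiv x (H j)) * (Polynomial.derivative (path x)).eval t := by
      rw [hG, Polynomial.derivative_sub, Polynomial.eval_sub, derivative_aeval, Polynomial.eval_finsetSum]
      congr 1
      apply Finset.sum_congr rfl
      intro x _
      rw [Polynomial.eval_mul, eval_aeval, hpe]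
    have h3 : (Polynomial.derivative G).eval t - vh =
        ((Polynomial.derivative (path (Sum.inr j))).eval t - v (Sum.inr j)) -
        ∑ x, MvPolynomial.eval c.pt (MvPolynomial.pderiv x (H j)) *
          ((Polynomial.derivative (path x)).eval t - v x) := by
      rw [h2, hvh]
      simp only [mul_sub]
      rw [Finset.sum_sub_distrib]
      ring
    rw [h3]
    exact Ideal.sub_mem _ (hvp _) (Ideal.sum_mem _ fun x _ => Ideal.mul_mem_left _ _ (hvp x))
  have hKs : c.K s ≤ vd c.R 1 ⊔ (vd c.q 1 ⊔ vd (c.u i) 1) := by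
    refine (hb.pt s hs.le hs1).trans (sup_le ?_ ?_)
    · exact ((vd_mono _ hs1).trans le_sup_left).trans le_sup_right
    · exact (vd_mono _ hs1).trans le_sup_left
  have hvk : ∀ x, dg (v x) 1 ≤ vd c.R 1 ⊔ (vd c.q 1 ⊔ vd (c.u i) 1) := by
    rintro (a | a)
    · rw [hv]
      exact ((dg_le_vd (c.u i) 1 a).trans le_sup_right).trans le_sup_right
    · rw [hv]
      exact (fv_le hb s i a).trans (sup_le hKs le_sup_right)
  have hvhk : dg vh 1 ≤ vd c.R 1 ⊔ (vd c.q 1 ⊔ vd (c.u i) 1) := by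
    rw [hvh]
    refine (dg_sub_le _ _ le_rfl).trans (sup_le (hvk _) ?_)
    refine (Kn S 1 le_rfl _).sum_mem fun x _ => (Kn S 1 le_rfl _).mul_mem ?_ (hvk x)
    refine QS.eval_mem (pderiv_PK (PK_mono bot_le (hH j)) _) _ le_rfl ?_
    rintro (a | a)
    · exact ((dg_le_vd c.q 1 a).trans le_sup_left).trans le_sup_right
    · exact (dg_le_vd c.R 1 a).trans le_sup_left
  -- Markov
  have hX1 : dg ((Polynomial.derivative G).eval t) μ ≤ vd c.R 1 ⊔ (vd c.q 1 ⊔ vd (c.u i) 1) := by
    rw [dg_eq_of_sub_mem hG1 hμv hμ1]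
    exact (dg_mono _ hμ1).trans hvhk
  have htq : dg t μ ≤ vd c.q 1 := by
    rw [ht]
    exact (dg_mono _ hμ1).trans (dg_le_vd c.q 1 0)
  have hX2 : dg ((Polynomial.derivative G).eval t) μ ≤ (B ⊔ vd c.q 1) ⊔ (vd c.q 1 ⊔ vd (c.u i) 1) := by
    rw [dg_eq_of_sub_mem hd hμκ hμ1]
    refine (eval_PK1 (deriv_cP he) t hμ1).trans (sup_le (le_sup_left.trans le_sup_left) ?_)
    exact (htq.trans le_sup_right).trans le_sup_left
  have hX3 := le_of_markov hX1 hX2 hmk
  have hqau : vd c.q 1 ≤ vd (Sum.elim (c.a i) (c.u i)) 1 ⊔ dg t 1 := by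
    rw [vd_sume, vd_le]
    intro a
    rw [hl.line i a, ← ht]
    refine (dg_add_le _ _ le_rfl).trans (sup_le ?_ ((dg_mul_le _ _ le_rfl).trans (sup_le le_sup_right ?_)))
    · exact ((dg_le_vd (c.a i) 1 a).trans le_sup_left).trans le_sup_left
    · exact ((dg_le_vd (c.u i) 1 a).trans le_sup_right).trans le_sup_left
  have hX4 : dg ((Polynomial.derivative G).eval t) μ ≤ vd (Sum.elim (c.a i) (c.u i)) 1 ⊔ dg t 1 := by
    refine hX3.trans (sup_le hqau ?_)
    rw [vd_sume]
    exact le_sup_right.trans le_sup_left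
  -- the coefficients
  have hbi : vd (Sum.elim (c.a i) (c.u i)) 1 = c.b i := by rw [vd_sume, hl.gen i]
  have hco : ∀ n, dg ((Polynomial.derivative G).coeff n) μ ≤ c.b i := by
    intro n
    by_cases hn : n ≤ (Polynomial.derivative G).natDegree
    · have h2 := coef_known
        (fun a : Fin ((Polynomial.derivative G).natDegree + 1) => (Polynomial.derivative G).coeff (a : ℕ)) t
        (Sum.elim (c.a i) (c.u i)) (by
          apply le_antisymm (h_dg_le_one _ _)
          have h3 := hl.time i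
          rw [← ht] at h3
          refine h3.ge.trans (h_anti (sup_le ?_ ?_))
          · rw [vd_le]
            intro a
            rw [Polynomial.coeff_derivative]
            have h4 : (((a : ℕ) : QS S) + 1) = (((a : ℕ) + 1 : ℕ) : QS S) := by push_cast; rfl
            rw [h4]
            exact (Kn S 1 le_rfl _).mul_mem (hGk _) (natCast_mem (Kn S 1 le_rfl _) _)
          · rw [hbi]
            exact le_sup_left) hμ1 (by rw [pe_coeff]; exact hX4) ⟨n, Nat.lt_succ_of_le hn⟩
      rw [← hbi]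
      exact h2
    · rw [Polynomial.coeff_eq_zero_of_natDegree_lt (by omega)]
      exact (Kn S μ hμ1 _).zero_mem
  have hco1 : ∀ n, dg (G.coeff (n + 1)) μ ≤ c.b i := by
    intro n
    have h2 : G.coeff (n + 1) = (Polynomial.derivative G).coeff n * iv S n := by
      rw [Polynomial.coeff_derivative, mul_assoc, mul_comm _ (iv S n), iv_mul, mul_one]
    rw [h2]
    apply (Kn S μ hμ1 _).mul_mem (hco n)
    show dg _ _ ≤ _
    rw [dg_iv]
    exact bot_le
  choose g hg1 hg2 using fun n => exists_round (G.coeff (n + 1)) hμ0 hμ1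
  refine ⟨G.natDegree, Fin.cons (G.coeff 0) fun l => g l, ?_, ?_, ?_⟩
  · intro l
    rw [Fin.cons_succ]
    exact (hg1 l).trans (hco1 l)
  · rw [Fin.cons_zero]
    exact hGk 0
  · rw [← hGe, ← ht, ← pe_coeff]
    unfold pe
    rw [← Finset.sum_sub_distrib]
    apply Ideal.sum_mem
    intro a _
    rw [← sub_mul]
    apply Ideal.mul_mem_right
    refine Fin.cases ?_ (fun a => ?_) a
    · rw [Fin.cons_zero]
      show G.coeff 0 - G.coeff 0 ∈ _
      rw [sub_self]
      exact Ideal.zero_mem _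
    · rw [Fin.cons_succ]
      exact hg2 a

end

end Pool.Agent.Helper79.HLD
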