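import Pool.Agent.Helper13.AM.Blk
import Pool.Agent.Helper79.JET.Jet

/-! Velocities of the curves of a corner: up to the level `(m - 1) s` (`m` = lowest weight, `w_z s ≤ 1`) they are
known to the point and the direction. -/

set_option autoImplicit false
set_option linter.unusedSectionVars false

namespace Pool.Agent.Helper79.HLD

open Finset Filter Topology Pool.Agent.Helper69.RK Pool.Agent.Helper31.EC Pool.Agent.Helper31.EC.Sp
open Pool.Agent.Helper31.EC.QS Pool.Agent.Helper57.TA Pool.Agent.Helper21.DO Pool.Agent.Helper79.JET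
open Pool.Agent.Helper13.AM Pool.Agent.Helper38.NS
open Pool.Agent.Helper82.TP (Lit)

noncomputable section

variable {S : Sp}

/-- polynomial with given coefficients -/
def cP {k : ℕ} (c : Fin (k + 1) → QS S) : Polynomial (QS S) :=
  ∑ a, Polynomial.C (c a) * Polynomial.X ^ (a : ℕ)

theorem cP_eval {k : ℕ} (c : Fin (k + 1) → QS S) (x : QS S) : (cP c).eval x = pe c x := by
  unfold cP pe
  rw [Polynomial.eval_finsetSum]
  apply Finset.sum_congr rfl
  intro a _
  rw [Polynomial.eval_mul, Polynomial.eval_C, Polynomial.eval_pow, Polynomial.eval_X]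

theorem cP_PK1 {k : ℕ} {c : Fin (k + 1) → QS S} {A : S.L} (h : ∀ a, dg (c a) 1 ≤ A) : cP c ∈ PK1 A :=
  (PK1 A).sum_mem fun a _ => (PK1 A).mul_mem (PK1_C (h a)) ((PK1 A).pow_mem (PK1_X A) _)

theorem cP_map {T : Sp} (p : Pj T S) {k : ℕ} (c : Fin (k + 1) → QS S) :
    Polynomial.map p.qs (cP c) = cP fun a => p.qs (c a) := by
  unfold cP
  rw [Polynomial.map_sum]
  apply Finset.sum_congr rfl
  intro a _
  rw [Polynomial.map_mul, Polynomial.map_C, Polynomial.map_pow, Polynomial.map_X]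

theorem comp_PK1 {A : S.L} {P Q : Polynomial (QS S)} (hP : P ∈ PK1 A) (hQ : Q ∈ PK1 A) : P.comp Q ∈ PK1 A := by
  rw [Polynomial.comp, Polynomial.eval₂_eq_sum_range]
  exact (PK1 A).sum_mem fun a _ => (PK1 A).mul_mem (PK1_C (hP a)) ((PK1 A).pow_mem hQ _)

theorem coeff_one_eq (P : Polynomial (QS S)) : P.coeff 1 = (Polynomial.derivative P).eval 0 := by
  rw [← Polynomial.coeff_zero_eq_eval_zero, Polynomial.coeff_derivative]
  simp

variable {d N r : ℕ} {c : CD S d N r} {w : Fin N → ℝ} {z : Fin N}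

/-- the velocity in the frame of scale `s` -/
def fv (c : CD S d N r) (s : ℝ) (i : Fin r) (j : Fin N) : QS S :=
  ∑ a, c.u i a * MvPolynomial.eval (Sum.elim (fun a => c.q a - c.q0 s a) (fun _ => 0))
    (MvPolynomial.pderiv (Sum.inl a) (c.F s j))

theorem u_le (hl : c.Ln) (i : Fin r) (a : Fin (d + 1)) : dg (c.u i a) 1 ≤ c.b i :=
  (hl.lit i a).2.dg_le (hl.bdd i) le_rfl

theorem a_le (hl : c.Ln) (i : Fin r) (a : Fin (d + 1)) : dg (c.a i a) 1 ≤ c.b i :=
  (hl.lit i a).1.dg_le (hl.bdd i) le_rfl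

theorem cf_le (i : Fin r) (j : Fin N) (a : Fin (c.g + 1)) : dg (c.cf i j a) 1 ≤ c.xi i :=
  (dg_le_vd (c.cv i) 1 (j, a)).trans le_sup_right

theorem F_le (hb : c.Bx w z) (s : ℝ) (j : Fin N) : c.F s j ∈ PK (c.K s) :=
  fun n => (hb.litF s j n).dg_le (hb.bdd s) le_rfl

theorem q0_le (hb : c.Bx w z) (s : ℝ) (a : Fin (d + 1)) : dg (c.q0 s a) 1 ≤ c.K s :=
  (hb.litq s a).dg_le (hb.bdd s) le_rfl

theorem fv_le (hb : c.Bx w z) (s : ℝ) (i : Fin r) (j : Fin N) :
    dg (fv c s i j) 1 ≤ c.K s ⊔ (vd c.q 1 ⊔ vd (c.u i) 1) := by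
  apply (Kn S 1 le_rfl (c.K s ⊔ (vd c.q 1 ⊔ vd (c.u i) 1))).sum_mem
  intro a _
  apply (Kn S 1 le_rfl _).mul_mem
  · exact ((dg_le_vd (c.u i) 1 a).trans le_sup_right).trans le_sup_right
  · refine QS.eval_mem (pderiv_PK (PK_mono le_sup_left (F_le hb s j)) _) _ le_rfl ?_
    rintro (b | b)
    · exact (dg_sub_le _ _ le_rfl).trans (sup_le (((dg_le_vd c.q 1 b).trans le_sup_left).trans le_sup_right)
        ((q0_le hb s b).trans le_sup_left))
    · exact (Kn S 1 le_rfl _).zero_mem

/-- VELOCITY FORMULA -/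
theorem vel (hl : c.Ln) (hb : c.Bx w z) (w1 : ∀ j, 1 < w j) {s : ℝ} (hs : 0 < s)
    (hs1 : w z * s ≤ 1) {m : ℝ} (hm : ∀ j, m ≤ w j) (i : Fin r) (hxi : c.K s ≤ c.xi i ⊔ dg (c.q 0) s) (j : Fin N) :
    (Polynomial.derivative (cP (c.cf i j))).eval (c.q 0) - fv c s i j ∈ Id S (m * s - 1 * s) := by
  classical
  have hs2 : s < 1 := by
    have h2 : 1 * s < w z * s := mul_lt_mul_of_pos_right (w1 z) hs
    linarith
  have hms : m * s ≤ 1 := (mul_le_mul_of_nonneg_right (hm z) hs.le).trans hs1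
  set f : (Fin N × Fin (c.g + 1)) ⊕ (Fin (d + 1) ⊕ (Fin (d + 1) ⊕ Fin (c.m s))) → QS S :=
    Sum.elim (c.cv i) (Sum.elim (c.a i) (Sum.elim (c.u i) (c.G s))) with hf
  have hfk : vd f 1 ≤ c.xi i ⊔ c.K s := by
    rw [vd_le]
    rintro (x | x | x | x)
    · exact ((dg_le_vd (c.cv i) 1 x).trans le_sup_right).trans le_sup_left
    · exact ((a_le hl i x).trans le_sup_left).trans le_sup_left
    · exact ((u_le hl i x).trans le_sup_left).trans le_sup_left
    · rw [hb.gen s hs.le hs1]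
      exact (dg_le_vd (c.G s) 1 x).trans le_sup_right
  obtain ⟨D, p, P2, hc, hi⟩ := exists_third (Pj.id S) f
  have hcf : ∀ x, p.qs (f x) = P2.qs (f x) := by
    intro x
    have h2 := hc x
    rwa [Pj.id_qs] at h2
  have hcv : ∀ j a, p.qs (c.cf i j a) = P2.qs (c.cf i j a) := fun j a => hcf (Sum.inl (j, a))
  have hca : ∀ a, p.qs (c.a i a) = P2.qs (c.a i a) := fun a => hcf (Sum.inr (Sum.inl a))
  have hcu : ∀ a, p.qs (c.u i a) = P2.qs (c.u i a) := fun a => hcf (Sum.inr (Sum.inr (Sum.inl a)))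
  have hcG : ∀ a, p.qs (c.G s a) = P2.qs (c.G s a) := fun a => hcf (Sum.inr (Sum.inr (Sum.inr a)))
  obtain ⟨hq0, hF⟩ := hb.fr s D p P2 hcG
  -- the times
  obtain ⟨t1, ht1⟩ : ∃ t1, t1 = p.qs (c.q 0) := ⟨_, rfl⟩
  obtain ⟨t2, ht2⟩ : ∃ t2, t2 = P2.qs (c.q 0) := ⟨_, rfl⟩
  have htt : t2 - t1 ∈ Id D s := by
    have h2 := (Id D s).sub_mem (qs_Id P2 (hb.fq s hs.le hs1 0)) (qs_Id p (hb.fq s hs.le hs1 0))
    rw [map_sub, map_sub, hq0 0, ← ht1, ← ht2] at h2
    refine (congrArg (· ∈ Id D s) ?_).mp h2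
    ring
  obtain ⟨τ, hτ, hτk⟩ := exists_div' hs.le hs2.le htt
  -- what is known at the first point
  obtain ⟨B, hB⟩ : ∃ B : S.L, B = c.xi i ⊔ (vd c.q 1 ⊔ c.K s) := ⟨_, rfl⟩
  have hxB : c.xi i ≤ B := by rw [hB]; exact le_sup_left
  have hqB : vd c.q 1 ≤ B := by rw [hB]; exact le_sup_left.trans le_sup_right
  have hKB : c.K s ≤ B := by rw [hB]; exact le_sup_right.trans le_sup_right
  have hτr : h (dg τ (1 - s)) (p.map B) = 1 - s := by
    apply le_antisymm ((h_le_H _ _).trans (H_dg_le _ (by linarith)))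
    have h2 : h (P2.map (dg (c.q 0) 1)) (p.map B) = h (dg (c.q 0) 1) (vd f 1) := by
      have h3 := I_zero_iff_h'.mp (hi B (dg (c.q 0) 1))
      have h4 : P2.map (vd f 1) ≤ p.map B := by
        rw [← P2.qs_vd, ← vd_congr hcf 1, p.qs_vd]
        exact Pj.map_mono _ (hfk.trans (sup_le hxB hKB))
      rw [sup_eq_left.mpr h4] at h3
      rw [h3, Pj.h_map]
    have h3 : 1 - s ≤ h (dg (c.q 0) 1) (vd f 1) := by
      have h4 : vd f 1 ≤ c.xi i ⊔ dg (c.q 0) s := hfk.trans (sup_le le_sup_left hxi)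
      refine le_trans ?_ (h_anti h4)
      have h5 := h_triangle (dg (c.q 0) 1) (dg (c.q 0) s) (c.xi i)
      rw [hl.time i, sup_comm (dg (c.q 0) s)] at h5
      have h6 := (h_le_H (dg (c.q 0) s) (c.xi i)).trans (H_dg_le (c.q 0) hs.le)
      linarith
    have h4 : P2.map (dg (c.q 0) 1) ≤ dg τ (1 - s) ⊔ p.map B := by
      rw [← P2.qs_dg, ← ht2]
      have e1 : t2 = sc D s * τ + t1 := by
        rw [← hτ]
        ring
      rw [e1]
      refine (dg_add_le _ _ le_rfl).trans (sup_le ((dg_sc_mul hs.le hs2.le le_rfl _).trans le_sup_left) ?_)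
      rw [ht1, p.qs_dg]
      exact (Pj.map_mono _ ((dg_le_vd c.q 1 0).trans hqB)).trans le_sup_right
    have h5 : h (P2.map (dg (c.q 0) 1)) (p.map B) ≤ h (dg τ (1 - s)) (p.map B) := by
      refine (h_mono h4).trans ?_
      rw [h_sup_right_of_le le_rfl]
    linarith
  -- the polynomial
  set path : Fin (d + 1) ⊕ Fin N → Polynomial (QS D) :=
    Sum.elim (fun a => Polynomial.C (p.qs (c.q a - c.q0 s a)) + Polynomial.X * Polynomial.C (p.qs (c.u i a)))
      (fun _ => 0) with hpath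
  obtain ⟨Q, hQ⟩ : ∃ Q : Polynomial (QS D), Q = (cP fun a => p.qs (c.cf i j a)).comp
    (Polynomial.X + Polynomial.C t1) - MvPolynomial.aeval path (MvPolynomial.map p.qs (c.F s j)) := ⟨_, rfl⟩
  have hpe : ∀ y, (fun x => (path x).eval y) = Sum.elim (fun a => p.qs (c.q a - c.q0 s a) + y * p.qs (c.u i a))
      (fun _ => 0) := by
    intro y
    funext x
    rcases x with a | a
    · show (Polynomial.C _ + Polynomial.X * Polynomial.C _ : Polynomial (QS D)).eval y = _
      rw [Polynomial.eval_add, Polynomial.eval_mul, Polynomial.eval_C, Polynomial.eval_C, Polynomial.eval_X]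
      rfl
    · exact Polynomial.eval_zero
  have hQk : Q ∈ PK1 (p.map B) := by
    rw [hQ]
    refine (PK1 _).sub_mem (comp_PK1 (cP_PK1 ?_) ((PK1 _).add_mem (PK1_X _) (PK1_C ?_))) (PK1_aeval ?_ _ ?_)
    · intro a
      rw [p.qs_dg]
      exact Pj.map_mono _ ((cf_le i j a).trans hxB)
    · rw [ht1, p.qs_dg]
      exact Pj.map_mono _ ((dg_le_vd c.q 1 0).trans hqB)
    · exact map_PK p (PK_mono hKB (F_le hb s j))
    · rintro (a | a)
      · refine (PK1 _).add_mem (PK1_C ?_) ((PK1 _).mul_mem (PK1_X _) (PK1_C ?_))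
        · rw [p.qs_dg]
          exact Pj.map_mono _ ((dg_sub_le _ _ le_rfl).trans (sup_le ((dg_le_vd c.q 1 a).trans hqB)
            ((q0_le hb s a).trans hKB)))
        · rw [p.qs_dg]
          exact Pj.map_mono _ (((u_le hl i a).trans le_sup_left).trans hxB)
      · exact (PK1 _).zero_mem
  have hQe : Q.eval (sc D s * τ) ∈ Id D (m * s) := by
    have e0 : t1 + sc D s * τ = t2 := by
      rw [← hτ]
      ring
    have e1 : Q.eval (sc D s * τ) = P2.qs (c.R j) - MvPolynomial.eval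
        (Sum.elim (fun a => P2.qs (c.q a - c.q0 s a)) (fun _ => 0)) (MvPolynomial.map P2.qs (c.F s j)) := by
      rw [hQ, Polynomial.eval_sub, Polynomial.eval_comp, Polynomial.eval_add, Polynomial.eval_X, Polynomial.eval_C,
        eval_aeval, hpe, add_comm (sc D s * τ) t1, e0, cP_eval, hl.curve i j, pe_map, hF j]
      congr 1
      · rw [← ht2]
        congr 1
        funext a
        exact hcv j a
      · congr 2
        funext x
        rcases x with a | a
        · show p.qs (c.q a - c.q0 s a) + sc D s * τ * p.qs (c.u i a) = P2.qs (c.q a - c.q0 s a)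
          rw [map_sub, map_sub, hl.line i a, map_add, map_add, map_mul, map_mul, hq0 a, hca a, hcu a, ← ht1, ← ht2,
            ← e0]
          ring
        · rfl
    rw [e1]
    have h2 := congrArg P2.qs (hb.fR s hs.le hs1 j)
    rw [map_add, qs_eval] at h2
    rw [h2]
    have h3 : ∀ l, P2.qs (c.γ s l) ∈ Id D (m * s) := fun l =>
      Id_mono (mul_le_mul_of_nonneg_right (hm l) hs.le) (qs_Id P2 (hb.fγ s hs.le hs1 l))
    have h4 := eval_sub_mem (Id D (m * s)) (MvPolynomial.map P2.qs (c.F s j))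
      (fun x => P2.qs (Sum.elim (fun i => c.q i - c.q0 s i) (c.γ s) x))
      (Sum.elim (fun a => P2.qs (c.q a - c.q0 s a)) (fun _ => 0)) (by
        rintro (a | a)
        · show P2.qs (c.q a - c.q0 s a) - P2.qs (c.q a - c.q0 s a) ∈ _
          rw [sub_self]
          exact Ideal.zero_mem _
        · show P2.qs (c.γ s a) - 0 ∈ _
          rw [sub_zero]
          exact h3 a)
    have h5 := Ideal.add_mem _ h4 (h3 j)
    refine (congrArg (· ∈ Id D (m * s)) ?_).mp h5
    ring
  have h6 := coeff_scaled Q τ hQk (ℓ := 1 - s) (by linarith) (by linarith) hτr hs.le hms hQe 1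
  have h7 : Q.coeff 1 = p.qs ((Polynomial.derivative (cP (c.cf i j))).eval (c.q 0) - fv c s i j) := by
    rw [coeff_one_eq, hQ, Polynomial.derivative_sub, Polynomial.eval_sub, Polynomial.derivative_comp,
      Polynomial.eval_mul, Polynomial.eval_comp, Polynomial.derivative_add, Polynomial.derivative_X,
      Polynomial.derivative_C, add_zero, Polynomial.eval_one, one_mul, Polynomial.eval_add, Polynomial.eval_X,
      Polynomial.eval_C, zero_add, map_sub]
    congr 1
    · rw [← cP_map, Polynomial.derivative_map, ht1, Polynomial.eval_map, Polynomial.eval₂_hom]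
    · rw [derivative_aeval, Polynomial.eval_finsetSum]
      unfold fv
      rw [map_sum, Fintype.sum_sum_type]
      have h8 : ∑ x : Fin N, (MvPolynomial.aeval path (MvPolynomial.pderiv (Sum.inr x)
          (MvPolynomial.map p.qs (c.F s j))) * Polynomial.derivative (path (Sum.inr x))).eval 0 = 0 := by
        apply Finset.sum_eq_zero
        intro x _
        have h9 : path (Sum.inr x) = 0 := rfl
        rw [h9, Polynomial.derivative_zero, mul_zero, Polynomial.eval_zero]
      rw [h8, add_zero]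
      apply Finset.sum_congr rfl
      intro a _
      rw [Polynomial.eval_mul, eval_aeval, hpe]
      have h9 : Polynomial.derivative (path (Sum.inl a)) = Polynomial.C (p.qs (c.u i a)) := by
        show Polynomial.derivative (Polynomial.C _ + Polynomial.X * Polynomial.C _) = _
        simp
      rw [h9, Polynomial.eval_C, map_mul, qs_eval, MvPolynomial.pderiv_map, mul_comm]
      congr 3
      funext x
      rcases x with b | b
      · show p.qs _ + 0 * _ = p.qs _
        rw [zero_mul, add_zero]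
        rfl
      · exact (map_zero p.qs).symm
  have h8 : m * s - 1 * s ≤ 1 := by linarith
  rw [h7] at h6
  have h9 : m * s - ((1 : ℕ) : ℝ) * s = m * s - 1 * s := by rw [Nat.cast_one]
  rw [h9, p.qs_mem_Id h8] at h6
  exact h6

end

end Pool.Agent.Helper79.HLD
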